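import Pool.Agent.Helper28.TK.StK

/-!
# Project TK, module KINS: potentials with a sign under the reflection force the coefficients to vanish

If `I p q j + s (-1)^(A+j) I (-p) q j = 0` for all `j ≤ 2A`, then `H(-x) = -s (-1)^A H(x)`, so the Fourier
coefficients of `H` of positive index are, up to sign, those of negative index, which are zero.
-/

set_option autoImplicit false

namespace Pool.Agent.Helper1.TK

open Pool.Agent.Helper28.TK Pool.Agent.Helper14.WK
open Pool.Agent.Helper14.CV (G0 Homog EqC act)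
open Pool.Agent.Helper28.WK (pr cp)
open Pool.Agent.Helper76.TX (Sg)

/-- The sum of KB2 at `-p`. -/
private lemma kin_sum (A : ℕ) (I : ℤ → ℤ → ℕ → ℂ) (p q : ℤ) (t : ℂ) (ht : t * t = 1)
    (hodd : ∀ j : ℕ, j ≤ 2 * A → I p q j + t * ((-1) ^ (A + j) * I (-p) q j) = 0) :
    ∑ j ∈ Finset.range (2 * A + 1), ((2 * A).choose j : ℂ) * (-((-p : ℤ) : ℂ)) ^ (2 * A - j) *
        (q : ℂ) ^ j * I (-p) q j =
      -t * (-1) ^ A * ∑ j ∈ Finset.range (2 * A + 1), ((2 * A).choose j : ℂ) * (-(p : ℂ)) ^ (2 * A - j) *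
        (q : ℂ) ^ j * I p q j := by
  rw [Finset.mul_sum]
  refine Finset.sum_congr rfl fun j hj => ?_
  have hj' : j ≤ 2 * A := by
    have := Finset.mem_range.1 hj
    omega
  have h1 : I (-p) q j = -t * (-1) ^ (A + j) * I p q j := by
    have h := hodd j hj'
    have h2 : ((-1 : ℂ) ^ (A + j)) * (-1) ^ (A + j) = 1 := by
      rw [← pow_add, Even.neg_one_pow ⟨A + j, rfl⟩]
    linear_combination t * (-1 : ℂ) ^ (A + j) * h - t * t * I (-p) q j * h2 - I (-p) q j * ht
  have h3 : (-(p : ℂ)) ^ (2 * A - j) = (-1) ^ j * (p : ℂ) ^ (2 * A - j) := by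
    rw [neg_pow]
    congr 1
    have h4 : ((-1 : ℂ) ^ (2 * A - j)) * (-1) ^ j = 1 := by
      rw [← pow_add, Nat.sub_add_cancel hj', Even.neg_one_pow ⟨A, by ring⟩]
    have h5 : ((-1 : ℂ) ^ j) * (-1) ^ j = 1 := by
      rw [← pow_add, Even.neg_one_pow ⟨j, rfl⟩]
    linear_combination (-1 : ℂ) ^ j * h4 - (-1 : ℂ) ^ (2 * A - j) * h5
  have h5 : ((-1 : ℂ) ^ j) * (-1) ^ j = 1 := by
    rw [← pow_add, Even.neg_one_pow ⟨j, rfl⟩]
  rw [h1, h3, pow_add]
  push_cast
  ring_nf

/-- The function `H` at rational numbers. -/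
private lemma kin_rat (h2 : SKB2) (N : ℕ) [hN : NeZero N] (A : ℕ) (f : CuspForm (G0 N) (2 * A + 2))
    (I : ℤ → ℤ → ℕ → ℂ) (hA : 1 ≤ A) (hI : IsPotK A f I) (t : ℂ) (ht : t * t = 1)
    (hodd : ∀ j : ℕ, j ≤ 2 * A → ∀ p q : ℤ, (p ≠ 0 ∨ q ≠ 0) →
      I p q j + t * ((-1) ^ (A + j) * I (-p) q j) = 0) (r : ℚ) :
    HK A f (-(r : ℝ)) = -t * (-1) ^ A * HK A f (r : ℝ) := by
  have hq : (0 : ℤ) < (r.den : ℤ) := by exact_mod_cast r.den_pos
  have e1 := h2 N hN A f I hA hI r.num r.den hq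
  have e2 := h2 N hN A f I hA hI (-r.num) r.den hq
  rw [kin_sum A I r.num r.den t ht fun j hj => hodd j hj _ _ (Or.inr hq.ne'), ← e1] at e2
  have hr : ((r.num : ℤ) : ℝ) / (((r.den : ℕ) : ℤ) : ℝ) = (r : ℝ) := by
    rw [Int.cast_natCast]
    exact (Rat.cast_def r).symm
  have hr' : ((-r.num : ℤ) : ℝ) / (((r.den : ℕ) : ℤ) : ℝ) = -(r : ℝ) := by
    rw [← hr]
    push_cast
    ring
  rw [hr, hr'] at e2
  have hc : ((-1 : ℂ) ^ (A + 1) * Complex.I * (((r.den : ℕ) : ℤ) : ℂ) ^ (2 * A)) ≠ 0 := by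
    refine mul_ne_zero (mul_ne_zero (pow_ne_zero _ (by norm_num)) Complex.I_ne_zero)
      (pow_ne_zero _ ?_)
    exact_mod_cast hq.ne'
  refine mul_left_cancel₀ hc ?_
  rw [e2]
  ring

/-- The function `H` is odd or even. -/
private lemma kin_real (hB : SKB1) (h2 : SKB2) (N : ℕ) [hN : NeZero N] (A : ℕ)
    (f : CuspForm (G0 N) (2 * A + 2))
    (I : ℤ → ℤ → ℕ → ℂ) (hA : 1 ≤ A) (hI : IsPotK A f I) (t : ℂ) (ht : t * t = 1)
    (hodd : ∀ j : ℕ, j ≤ 2 * A → ∀ p q : ℤ, (p ≠ 0 ∨ q ≠ 0) →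
      I p q j + t * ((-1) ^ (A + j) * I (-p) q j) = 0) (x : ℝ) :
    HK A f (-x) = -t * (-1) ^ A * HK A f x := by
  have hc : Continuous (HK A f) := (hB N hN A f hA).2
  have hd : DenseRange ((↑) : ℚ → ℝ) := Rat.denseRange_cast
  have h := hd.equalizer (g := fun x : ℝ => HK A f (-x)) (h := fun x : ℝ => -t * (-1) ^ A * HK A f x)
    (hc.comp continuous_neg) (continuous_const.mul hc)
    (funext fun r => kin_rat h2 N A f I hA hI t ht hodd r)
  exact congrFun h x

/-- KINS: potentials with a sign under the reflection, all coefficients vanish. -/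
theorem hKINS : StKINS := by
  intro hB h2 h3 _hp N hN A f I s hs hA hI hodd m hm
  have ht : (s : ℂ) * (s : ℂ) = 1 := by
    have hs' : s = 1 ∨ s = -1 := hs
    rcases hs' with h | h
    · rw [h]; norm_num
    · rw [h]; norm_num
  have hH := kin_real hB h2 N A f I hA hI (s : ℂ) ht hodd
  obtain ⟨hpos, hneg, hper⟩ := h3 N hN A f hA
  have hcc : (-(s : ℂ) * (-1 : ℂ) ^ A) * (-(s : ℂ) * (-1) ^ A) = 1 := by
    have h4 : ((-1 : ℂ) ^ A) * (-1) ^ A = 1 := by
      rw [← pow_add, Even.neg_one_pow ⟨A, rfl⟩]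
    linear_combination ((-1 : ℂ) ^ A) * (-1) ^ A * ht + h4
  have hH' : ∀ x : ℝ, HK A f x = -(s : ℂ) * (-1) ^ A * HK A f (-x) := by
    intro x
    rw [hH x, ← mul_assoc, hcc, one_mul]
  have hz : ∫ x in (0 : ℝ)..1, HK A f x * Complex.exp (-(2 * Real.pi * Complex.I * m * x)) = 0 := by
    have e1 : ∫ x in (0 : ℝ)..1, HK A f x * Complex.exp (-(2 * Real.pi * Complex.I * m * x)) =
        ∫ x in (0 : ℝ)..1, (-(s : ℂ) * (-1) ^ A) * (fun y : ℝ => HK A f y *
          Complex.exp (2 * Real.pi * Complex.I * m * y)) (-x) := by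
      refine intervalIntegral.integral_congr fun x _ => ?_
      show HK A f x * Complex.exp (-(2 * Real.pi * Complex.I * m * x)) =
        (-(s : ℂ) * (-1) ^ A) * (HK A f (-x) * Complex.exp (2 * Real.pi * Complex.I * m * ((-x : ℝ) : ℂ)))
      rw [hH' x, Complex.ofReal_neg, mul_neg]
      ring
    have e3 := intervalIntegral.integral_comp_neg (a := 0) (b := 1) (fun y : ℝ => HK A f y *
      Complex.exp (2 * Real.pi * Complex.I * m * y))
    rw [e1, intervalIntegral.integral_const_mul]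
    refine mul_eq_zero_of_right _ (e3.trans ?_)
    have hP : Function.Periodic (fun y : ℝ => HK A f y *
        Complex.exp (2 * Real.pi * Complex.I * m * y)) 1 := by
      intro y
      show HK A f (y + 1) * Complex.exp (2 * Real.pi * Complex.I * m * ((y + 1 : ℝ) : ℂ)) =
        HK A f y * Complex.exp (2 * Real.pi * Complex.I * m * y)
      rw [hper y]
      congr 1
      have : (2 * Real.pi * Complex.I * m * ((y + 1 : ℝ) : ℂ)) =
          2 * Real.pi * Complex.I * m * y + (m : ℕ) * (2 * Real.pi * Complex.I) := by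
        push_cast
        ring
      rw [this]
      exact Complex.exp_periodic.nat_mul m _
    have e2 := hP.intervalIntegral_add_eq (-1) 0
    rw [show (-1 : ℝ) + 1 = 0 by norm_num, show (0 : ℝ) + 1 = 1 by norm_num] at e2
    rw [neg_zero, e2]
    exact hneg m hm
  rw [hpos m hm] at hz
  rcases mul_eq_zero.1 hz with h | h
  · exact h
  · exfalso
    have h' : ((2 * A).factorial : ℝ) / (2 * Real.pi * m) ^ (2 * A + 1) = 0 := by
      exact_mod_cast h
    have hm' : (0 : ℝ) < m := by exact_mod_cast hm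
    have : 0 < ((2 * A).factorial : ℝ) / (2 * Real.pi * m) ^ (2 * A + 1) := by
      have := Nat.factorial_pos (2 * A)
      positivity
    exact this.ne' h'

end Pool.Agent.Helper1.TK
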